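import Mathlib
import Pool.Agent.H8Base.EvenFinal

set_option autoImplicit false

namespace Pool.Agent.Results.MP_8339c9_al.DecompositionBase

open Pool.Agent.OmegaEven Pool.Agent.H8Base

/-- Let `m ≥ 4` be even and `Q` a nondegenerate quadratic form in dimension `2 m` over a finite
field `F`, and `U` a subspace such that `U` and its orthogonal complement are both nondegenerate
`m`-dimensional of minus type. Let `G = PΩ(Q)` and let `H` be the image in `G` of the stabiliser in
`Ω(Q)` of the decomposition `V = U ⊥ U^⊥`, a subgroup of type `O^-_m(q) ≀ S_2`. If `F` has odd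
characteristic, then `b(G, G/H) = 2`; if `F` has characteristic two, then `b(G, G/H) = 3`. -/
theorem result {F V : Type*} [Field F] [Finite F] [AddCommGroup V] [Module F V]
    (m : ℕ) (hm : 4 ≤ m) (hme : Even m) (hV : Module.finrank F V = 2 * m)
    (Q : QuadraticForm F V) (hQ : Nondeg Q) (U : Submodule F V)
    (hU : MinusType Q m U) (hU' : MinusType Q m (orth Q U)) :
    ((2 : F) ≠ 0 → baseSize (POmega Q) (decompImage Q U) = 2) ∧
      ((2 : F) = 0 → baseSize (POmega Q) (decompImage Q U) = 3) := by
  refine ⟨fun h2 => odd_base h2 m hm hme hV Q hQ U hU hU', fun h2 => ?_⟩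
  haveI : CharP F 2 := CharTwo.of_one_ne_zero_of_two_eq_zero one_ne_zero h2
  exact even_exact m hm hme hV Q hQ U hU hU'

end Pool.Agent.Results.MP_8339c9_al.DecompositionBase
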