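import Mathlib
import Pool.Agent.OmegaEven.Final
import Pool.Agent.OmegaPlus.Defs
import Pool.Agent.OmegaPlus.Final
import Pool.Agent.OmegaPlus.Eight

set_option autoImplicit false

namespace Pool.Agent.Results.MP_8339c9_al.NotTwo

open Pool.Agent.OmegaEven Pool.Agent.OmegaPlus

/-- Let `m ≥ 4` be even and `Q` a nondegenerate quadratic form in dimension `2 m` over a finite
field `F`. If `F` has characteristic two, or if `Q` is of plus type and either `4` does not divide
`m` or `m = 4` and `F` has three elements, then the uniform domination number of `PΩ(Q)` is at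
least three. -/
theorem result {F V : Type*} [Field F] [Finite F] [AddCommGroup V] [Module F V]
    (m : ℕ) (hm : 4 ≤ m) (hme : Even m) (hV : Module.finrank F V = 2 * m)
    (Q : QuadraticForm F V) (hQ : Nondeg Q)
    (h : (2 : F) = 0 ∨ (PlusType Q m ∧ (¬ 4 ∣ m ∨ (m = 4 ∧ Nat.card F = 3)))) :
    3 ≤ uniformDomination (POmega Q) := by
  by_cases h2 : (2 : F) = 0
  · haveI : CharP F 2 := CharTwo.of_one_ne_zero_of_two_eq_zero one_ne_zero h2
    exact even_final m hm hme hV Q hQ
  · obtain ⟨hplus, h4⟩ := h.resolve_left h2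
    rcases h4 with h4 | ⟨h4, h5⟩
    · obtain ⟨r, hr⟩ := hme
      exact plus_final h2 m hm (by omega) hV Q hQ hplus
    · subst h4
      exact eight_final h5 hV Q hQ hplus

end Pool.Agent.Results.MP_8339c9_al.NotTwo
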