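import Mathlib
import Pool.Agent.OmegaOdd.Final

set_option autoImplicit false

namespace Pool.Agent.Results.MP_8339c9_al.OddMinus

open Pool.Agent.OmegaEven Pool.Agent.OmegaOdd

/-- Let `F` be a finite field of odd characteristic, `m > 0` even, `Q` a nondegenerate quadratic
form in dimension `2 m` and `s` an element of `Ω(Q)` acting irreducibly. For `t` dividing `m` let
`H t = fieldStab Q s t` be the stabiliser in `Ω(Q)` of the subfield of `F[s + s⁻¹]` of degree `t`.
There is one `g` in `Ω(Q)` such that the intersection of `H t` and `H' t'`, the stabilisers for `s`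
and `g s g⁻¹`, consists of scalars for all divisors `t, t' > 1` of `m`. Consequently, if
all maximal subgroups of `PΩ(Q)` containing the image of `s` lie in the images of the `H t` with `t`
a prime divisor of `m` (Bereczky's theorem, for `s` a Singer element), the uniform domination number
of `PΩ(Q)` is `2`. -/
theorem result {F V : Type*} [Field F] [Finite F] [AddCommGroup V] [Module F V]
    (hF : (2 : F) ≠ 0) (m : ℕ) (hm : 0 < m) (hme : Even m) (hV : Module.finrank F V = 2 * m)
    (Q : QuadraticForm F V) (hQ : Nondeg Q) (s : Omega Q) (hirr : ActsIrreducibly s.1) :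
    (∃ g ∈ Omega Q,
      MeetIn (scalarGroup F V) (fieldStab Q s.1) (fieldStab Q (g * s.1 * g⁻¹)) m) ∧
    (OnlyOvergroups (proj Q s) (fieldStabImage Q s.1) m → uniformDomination (POmega Q) = 2) :=
  odd_final hF m hm hme hV Q hQ s hirr

end Pool.Agent.Results.MP_8339c9_al.OddMinus
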